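import Pool.Agent.Lib.MP_cb200a_pr.Jk.Link

set_option autoImplicit false

open Finset

namespace Pool.Agent.Results.MP_cb200a_pr.Macdonald

open Classical in
/-- Fix reals `θ > 0` and `c`, and naturals `n ≥ 1`, `k`. Let `s x = x` if `c = 0` and
`s x = sinh (c x)` otherwise, and `R x = s (x + 1) s (x + θ) / (s x * s (x + 1 - θ))`. Let `E` be
the set of strictly increasing `h : Fin n → ℕ` with coordinate sum `k + n.choose 2`, and weight
`h` by the product, over `a < b` and `0 ≤ r < h b - h a - (b - a)`, of `R (θ (b - a) + r)`. Let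
`p t` be the normalised mass of the event that the top coordinate equals `t`. Then `p` is
log-concave on the integers. For `θ = 1`, `c = 0` the pair weight is
`((h b - h a) / (b - a)) ^ 2`. -/
theorem result (θ c : ℝ) (hθ : 0 < θ) (n k : ℕ) (hn : 0 < n) (E : Finset (Fin n → ℕ))
    (hE : ∀ h, h ∈ E ↔ StrictMono h ∧ ∑ i, h i = k + n.choose 2)
    (s : ℝ → ℝ) (hs : ∀ x, s x = if c = 0 then x else Real.sinh (c * x))
    (R : ℝ → ℝ) (hR : ∀ x, R x = s (x + 1) * s (x + θ) / (s x * s (x + 1 - θ)))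
    (w : (Fin n → ℕ) → ℝ)
    (hw : ∀ h, w h = ∏ a, ∏ b ∈ Ioi a, ∏ r ∈ range (h b - h a - (b.val - a.val)),
      R (θ * ((b.val : ℝ) - (a.val : ℝ)) + (r : ℝ)))
    (p : ℤ → ℝ)
    (hp : ∀ t, p t = (∑ h ∈ E with ((h ⟨n - 1, by omega⟩ : ℕ) : ℤ) = t, w h) / ∑ h ∈ E, w h)
    (j : ℤ) : p (j - 1) * p (j + 1) ≤ p j ^ 2 := by
  have : Fact (0 < θ) := ⟨hθ⟩
  obtain ⟨S, hS⟩ := Pool.Agent.Lib.MP_cb200a_pr.Jk.exists_sn θ c s hs R hR
  have sm : ∀ h : Fin n → ℕ, StrictMono h → StrictMono fun i => (h i : ℤ) :=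
    fun h hh a b hab => Int.ofNat_lt.2 (hh hab)
  obtain ⟨K, hwt⟩ : ∃ K : ℝ, ∀ h : Fin n → ℕ, StrictMono h →
      w h = K * Pool.Agent.Lib.MP_cb200a_pr.Jk.wt θ fun i => (h i : ℤ) := by
    obtain ⟨K, hK⟩ := Pool.Agent.Lib.MP_cb200a_pr.Jk.wt_eq (θ := θ) n
    exact ⟨K, fun h hh => by rw [hw, hS, hK h hh]⟩
  obtain ⟨m, rfl⟩ : ∃ m, n = m + 1 := ⟨n - 1, by omega⟩
  obtain ⟨B, hB⟩ : ∃ B : ℕ, B = k + (m + 1).choose 2 := ⟨_, rfl⟩
  rw [← hB] at hE
  have key : ∀ t : ℤ, ∑ h ∈ E with ((h ⟨m + 1 - 1, by omega⟩ : ℕ) : ℤ) = t, w h =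
      if 0 ≤ t ∧ t ≤ B then K * Pool.Agent.Lib.MP_cb200a_pr.Jk.Y θ m (fun _ => 1) t B
      else 0 := by
    intro t
    have le : ∀ h ∈ E, ∀ i, h i ≤ B := fun h hh i => by
      rw [← ((hE h).1 hh).2]
      exact Finset.single_le_sum (f := h) (fun _ _ => Nat.zero_le _) (mem_univ i)
    split_ifs with ht
    · rw [← Pool.Agent.Lib.MP_cb200a_pr.Jk.fiber_Y (fun _ => 1) (D := fun _ => 0) (c := B)
        (fun _ => rfl) ht.1 ht.2, Finset.mul_sum]
      refine Finset.sum_bij (fun h _ => fun i => ((h i : ℕ) : ℤ)) ?_ ?_ ?_ ?_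
      · intro h hh
        obtain ⟨h1, h2⟩ := mem_filter.1 hh
        refine mem_filter.2 ⟨Pool.Agent.Lib.MP_cb200a_pr.Jk.mem_Box.2
          ⟨fun i => ?_, sm h ((hE h).1 h1).1, ?_⟩, h2⟩
        · have := le h h1 i
          omega
        · exact_mod_cast ((hE h).1 h1).2
      · intro h _ h' _ c
        funext i
        have := congrFun c i
        exact_mod_cast this
      · intro y hy
        obtain ⟨hy1, hy2⟩ := mem_filter.1 hy
        obtain ⟨y1, y2, y3⟩ := Pool.Agent.Lib.MP_cb200a_pr.Jk.mem_Box.1 hy1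
        have c : ∀ i, (((y i).toNat : ℕ) : ℤ) = y i := fun i => Int.toNat_of_nonneg (y1 i).1
        refine ⟨fun i => (y i).toNat, mem_filter.2 ⟨(hE _).2 ⟨fun a b hab => ?_, ?_⟩,
          (c _).trans hy2⟩, funext c⟩
        · have := y2 hab
          have := y1 a
          simp only
          omega
        · have : ((∑ i, (y i).toNat : ℕ) : ℤ) = B := by
            push_cast
            simp only [c, y3]
          exact_mod_cast this
      · intro h hh
        rw [hwt h ((hE h).1 (mem_filter.1 hh).1).1]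
        simp [Pool.Agent.Lib.MP_cb200a_pr.Jk.W]
    · refine Finset.sum_eq_zero fun h hh => absurd ?_ ht
      obtain ⟨h1, h2⟩ := mem_filter.1 hh
      have := le h h1 ⟨m + 1 - 1, by omega⟩
      omega
  rw [hp, hp, hp, key, key, key]
  by_cases h1 : 0 ≤ j - 1 ∧ j - 1 ≤ B
  swap
  · rw [if_neg h1, zero_div, zero_mul]; positivity
  by_cases h2 : 0 ≤ j + 1 ∧ j + 1 ≤ B
  swap
  · rw [if_neg h2, zero_div, mul_zero]; positivity
  rw [if_pos h1, if_pos h2, if_pos (by omega), div_mul_div_comm, div_pow, ← sq]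
  refine div_le_div_of_nonneg_right ?_ (sq_nonneg _)
  have := Pool.Agent.Lib.MP_cb200a_pr.Jk.top_logconcave (θ := θ) m (j - 1) B h1.1
  rw [sub_add_cancel] at this
  nlinarith [mul_le_mul_of_nonneg_left this (sq_nonneg K)]

end Pool.Agent.Results.MP_cb200a_pr.Macdonald
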